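import Pool.Agent.E8helper53.FM.Core
import Pool.Agent.Helper894.FS.Final

/-!
The number of blocks of a set with a faithful line action; the line action of a free subgroup.
-/

set_option autoImplicit false
set_option linter.all false

namespace Pool.Agent.E8helper53.FM

open Pool.Agent.Helper894.FS

section

variable {A : Type} [Finite A] {S : Set (ℤ → A)} {r κ : ℕ}

/-- the number of words of length `n` which occur in points of `Y` -/
noncomputable def numBlocks {A : Type} (Y : Set (ℤ → A)) (n : ℕ) : ℕ :=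
  Nat.card {w : Fin n → A // ∃ x ∈ Y, ∃ k : ℤ, ∀ i : Fin n, x (k + (i : ℕ)) = w i}

theorem numBlocks_mono (Y : Set (ℤ → A)) : Monotone (numBlocks Y) := by
  intro n m hnm
  unfold numBlocks
  have : Finite {w : Fin m → A // ∃ x ∈ Y, ∃ k : ℤ, ∀ i : Fin m, x (k + (i : ℕ)) = w i} :=
    Subtype.finite
  apply Nat.card_le_card_of_surjective
    (fun w : {w : Fin m → A // ∃ x ∈ Y, ∃ k : ℤ, ∀ i : Fin m, x (k + (i : ℕ)) = w i} =>
      (⟨fun i => w.1 (Fin.castLE hnm i), by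
        obtain ⟨x, hx, k, hk⟩ := w.2
        exact ⟨x, hx, k, fun i => hk (Fin.castLE hnm i)⟩⟩ :
        {w : Fin n → A // ∃ x ∈ Y, ∃ k : ℤ, ∀ i : Fin n, x (k + (i : ℕ)) = w i}))
  rintro ⟨w, x, hx, k, hk⟩
  refine ⟨⟨fun i => x (k + (i : ℕ)), x, hx, k, fun i => rfl⟩, ?_⟩
  apply Subtype.ext
  funext i
  exact hk i

theorem union_bound' (D : LineAct A S r κ) {Y : Set (ℤ → A)} (hYi : Inv Y) (hYS : Y ⊆ S)
    (l : ℕ) (α : ℝ) (hlaw : HasLaw (univAct r) l α)
    (hN : (numBlocks Y (2 * (l * r + κ) + 1) : ℝ) * α < 1) :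
    ∃ g : F2, g ≠ 1 ∧ ∀ x ∈ Y, D.Q x g 0 = 0 := by
  classical
  obtain ⟨ι, _, w, g, hw0, hw1, hg1, hgl, hlaw⟩ := hlaw
  by_contra hcon0
  have hcon : ∀ i, ∃ x, x ∈ Y ∧ D.Q x (g i) 0 ≠ 0 := by
    intro i
    by_contra hc
    push Not at hc
    exact hcon0 ⟨g i, hg1 i, hc⟩
  choose x hxY hx using hcon
  obtain ⟨R, hR⟩ : ∃ R, R = l * r + κ := ⟨_, rfl⟩
  rw [← hR] at hN
  let W := {v : Fin (2 * R + 1) → A // ∃ x ∈ Y, ∃ k : ℤ, ∀ i : Fin (2 * R + 1),
    x (k + (i : ℕ)) = v i}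
  have : Finite W := Subtype.finite
  let _ : Fintype W := Fintype.ofFinite W
  have hcard : (Fintype.card W : ℝ) = numBlocks Y (2 * R + 1) := by
    rw [numBlocks, Nat.card_eq_fintype_card]
  have hch : ∀ v : W, ∃ y : Y, ∀ j : ℤ, ∀ h : |j| ≤ R, ∃ i : Fin (2 * R + 1),
      ((i : ℕ) : ℤ) = j + R ∧ y.1 j = v.1 i := by
    rintro ⟨v, z, hz, k, hk⟩
    refine ⟨⟨sh (k + R) z, hYi _ z hz⟩, ?_⟩
    intro j hj
    rw [abs_le] at hj
    refine ⟨⟨(j + R).toNat, by omega⟩, ?_, ?_⟩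
    · simp only
      omega
    · show z (j + (k + R)) = v ⟨(j + R).toNat, _⟩
      rw [← hk]
      congr 1
      have : (((j + R).toNat : ℕ) : ℤ) = j + R := by omega
      simp only [this]
      ring
  choose y hy using hch
  have hloc : ∀ z : Y, ∃ v : W, ∀ i, D.Q z.1 (g i) 0 = D.Q (y v).1 (g i) 0 := by
    intro z
    refine ⟨⟨fun i => z.1 (-R + (i : ℕ)), z.1, z.2, -R, fun i => rfl⟩, ?_⟩
    intro i
    apply D.loc l (g i) (hgl i) z.1 (hYS z.2) _ (hYS (y _).2)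
    intro j hj
    have hj' : |j| ≤ (R : ℤ) := by rw [hR]; push_cast; exact hj
    obtain ⟨i', hi1, hi2⟩ := hy ⟨fun i => z.1 (-R + (i : ℕ)), z.1, z.2, -R, fun i => rfl⟩ j hj'
    rw [hi2]
    show z.1 j = z.1 (-R + ((i' : ℕ) : ℤ))
    rw [hi1]
    ring_nf
  have hpt : ∀ v : W, ∑ i, w i * Set.indicator {ω' | univAct r (g i) ω' ≠ ω'}
      (fun _ => (1 : ℝ)) (⟨D.Q (y v).1, D.disp _ (hYS (y v).2)⟩, 0) ≤ α := fun v => hlaw _
  have hsum : ∑ v : W, ∑ i, w i * Set.indicator {ω' | univAct r (g i) ω' ≠ ω'}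
      (fun _ => (1 : ℝ)) (⟨D.Q (y v).1, D.disp _ (hYS (y v).2)⟩, 0)
      ≤ Fintype.card W * α := by
    have := Finset.sum_le_card_nsmul Finset.univ _ α (fun v _ => hpt v)
    rwa [nsmul_eq_mul, Finset.card_univ] at this
  rw [Finset.sum_comm] at hsum
  have hge : ∑ i, w i ≤ ∑ i, ∑ v : W, w i * Set.indicator {ω' | univAct r (g i) ω' ≠ ω'}
      (fun _ => (1 : ℝ)) (⟨D.Q (y v).1, D.disp _ (hYS (y v).2)⟩, 0) := by
    apply Finset.sum_le_sum
    intro i _
    obtain ⟨v, hv⟩ := hloc ⟨x i, hxY i⟩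
    have h1 : w i = w i * Set.indicator {ω' | univAct r (g i) ω' ≠ ω'}
        (fun _ => (1 : ℝ)) (⟨D.Q (y v).1, D.disp _ (hYS (y v).2)⟩, 0) := by
      rw [Set.indicator_of_mem, mul_one]
      simp only [Set.mem_ofPred_eq, univAct]
      intro h
      have h2 := congrArg Prod.snd h
      rw [prodAct_apply] at h2
      simp only at h2
      exact hx i ((hv i).trans h2)
    calc w i = _ := h1
      _ ≤ _ := Finset.single_le_sum (f := fun v : W => w i *
          Set.indicator {ω' | univAct r (g i) ω' ≠ ω'} (fun _ => (1 : ℝ))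
          (⟨D.Q (y v).1, D.disp _ (hYS (y v).2)⟩, 0))
          (fun v _ => mul_nonneg (hw0 i) (Set.indicator_nonneg (fun _ _ => zero_le_one) _))
          (Finset.mem_univ v)
  rw [hw1] at hge
  rw [hcard] at hsum
  linarith

/-- a faithful line action needs many blocks -/
theorem many_blocks (D : LineAct A S r κ) {Y : Set (ℤ → A)} (hYi : Inv Y) (hYS : Y ⊆ S)
    (hf : ∀ g : F2, g ≠ 1 → ∃ x ∈ Y, D.Q x g 0 ≠ 0) :
    ∃ ε : ℝ, 0 < ε ∧ ∃ n₀ : ℕ, ∀ n ≥ n₀, ε * Real.sqrt n < Real.log (numBlocks Y n) := by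
  by_contra hcon
  push Not at hcon
  obtain ⟨l₀, hl₀⟩ := core r (1 / 96) (by norm_num)
  obtain ⟨l, α, hlaw, hlt⟩ := JG4.iterate_law (numBlocks Y) (numBlocks_mono Y)
    (fun ε hε n₀ => hcon ε hε n₀) (fun l α => HasLaw (univAct r) l α)
    (fun l α hα hl => JB.law_step _ JA.twist l α hα hl) l₀ hl₀ r κ
  obtain ⟨g, hg1, hg2⟩ := union_bound' D hYi hYS l α hlaw hlt
  obtain ⟨x, hx, hne⟩ := hf g hg1
  exact hne (hg2 x hx)

end

section build

variable {A : Type} [Finite A]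

theorem lineHom_equi {S : Set (ℤ → A)} (hS : ∀ (k : ℤ), ∀ x ∈ S, sh k x ∈ S)
    (a : Bool → Equiv.Perm S) (c : Bool → S → ℤ)
    (hc : ∀ b x, (a b x : ℤ → A) = sh (c b x) x.1) (x : S) (k : ℤ) (g : F2) :
    ∀ n : ℤ, lineHom hS a c hc (shS hS k x) g n = lineHom hS a c hc x g (n + k) - k := by
  have hsh : ∀ n : ℤ, shS hS n (shS hS k x) = shS hS (n + k) x := fun n =>
    Subtype.ext (sh_sh n k x.1)
  induction g using FreeGroup.induction_on with
  | C1 => intro n; simp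
  | of b => intro n; rw [lineHom_of, lineHom_of, hsh]; ring
  | inv_of b _ =>
    intro n
    rw [map_inv, map_inv, Equiv.Perm.inv_eq_iff_eq, lineHom_of, hsh]
    have h := lineHom_of hS a c hc x b ((lineHom hS a c hc x (FreeGroup.of b))⁻¹ (n + k))
    rw [← Equiv.Perm.mul_apply, mul_inv_cancel, Equiv.Perm.one_apply] at h
    rw [sub_add_cancel]
    linarith
  | mul g h hg hh =>
    intro n
    rw [map_mul, map_mul, Equiv.Perm.mul_apply, Equiv.Perm.mul_apply, hh, hg, sub_add_cancel]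

theorem exists_act {F : Set (List A)} (hF : ∀ a : A, [a, a] ∈ F) (hfree : HasFree (FullSF F)) :
    ∃ (r κ : ℕ) (D : LineAct A (SF F) r κ), ∀ g : F2, g ≠ 1 → ∃ x ∈ SF F, D.Q x g 0 ≠ 0 := by
  classical
  letI : TopologicalSpace A := ⊥
  haveI : DiscreteTopology A := ⟨rfl⟩
  obtain ⟨f0, hf0, hK⟩ := hfree
  let e : F2 ≃* FreeGroup (Fin 2) := FreeGroup.freeGroupCongr finTwoEquiv.symm
  have hK' : ∀ g, f0 g ∈ (FullG F hF : Subgroup (HomeoSF F)) := by
    intro g
    have := hK g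
    rw [FullSF_eq F hF] at this
    exact this
  let f' : FreeGroup (Fin 2) →* (FullG F hF : Subgroup (HomeoSF F)) :=
    MonoidHom.codRestrict f0 _ hK'
  have hf' : Function.Injective f' := by
    intro x y hxy
    apply hf0
    exact congrArg Subtype.val hxy
  let f : F2 →* FullG F hF := f'.comp e.toMonoidHom
  have hf : Function.Injective f := show Function.Injective (f' ∘ e) from hf'.comp e.injective
  choose r κ c hc hr hκ using fun b : Bool =>
    JG1.exists_cocycle F hF (f (FreeGroup.of b)).1 (f (FreeGroup.of b)).2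
  set a : Bool → Equiv.Perm (SF F) := fun b => toPermHom _ (f (FreeGroup.of b)).1 with ha
  have hlift : FreeGroup.lift a = ((toPermHom (SF F)).comp (FullG F hF).subtype).comp f := by
    apply FreeGroup.ext_hom
    intro b
    rw [FreeGroup.lift_apply_of]
    rfl
  have hS : ∀ (k : ℤ), ∀ x ∈ SF F, sh k x ∈ SF F := fun k x hx => sh_mem k hx
  obtain ⟨r', hr'⟩ : ∃ r', r' = max (r true) (r false) := ⟨_, rfl⟩
  obtain ⟨κ', hκ'⟩ : ∃ κ', κ' = max (κ true) (κ false) := ⟨_, rfl⟩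
  have hc' : ∀ b x, (a b x : ℤ → A) = sh (c b x) x.1 := fun b x => hc b x
  have hrr : ∀ b x, |c b x| ≤ r' := fun b x => (hr b x).trans (by rw [hr']; cases b <;> simp)
  have hκκ : ∀ b (x y : SF F), (∀ i : ℤ, |i| ≤ κ' → x.1 i = y.1 i) → c b x = c b y :=
    fun b x y hxy => hκ b x y (fun i hi => hxy i (hi.trans (by rw [hκ']; cases b <;> simp)))
  let Q : (ℤ → A) → F2 →* Equiv.Perm ℤ := fun x =>
    if hx : x ∈ SF F then lineHom hS a c hc' ⟨x, hx⟩ else 1
  have hQ : ∀ x (hx : x ∈ SF F), Q x = lineHom hS a c hc' ⟨x, hx⟩ := fun x hx => dif_pos hx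
  refine ⟨r', κ', ⟨Q, ?_, ?_, ?_, ?_⟩, ?_⟩
  · intro x hx
    rw [hQ x hx]
    exact lineHom_disp hS a c hc' r' hrr _
  · intro x hx k g n
    rw [hQ x hx, hQ _ (hS k x hx)]
    exact lineHom_equi hS a c hc' ⟨x, hx⟩ k g n
  · intro x hx g n
    rw [hQ x hx]
    have h := (local_mk hS a c hc' r' κ' hrr hκκ ⟨x, hx⟩ ⟨x, hx⟩ n g.toWord (fun i _ => rfl)).2
    rw [FreeGroup.mk_toWord] at h
    exact h
  · intro l g hg x hx y hy hxy
    rw [hQ x hx, hQ y hy]
    exact local_norm hS a c hc' r' κ' hrr hκκ ⟨x, hx⟩ ⟨y, hy⟩ l g hg hxy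
  · intro g hg
    by_contra hcon
    push Not at hcon
    apply hg
    apply hf
    rw [map_one]
    have h1 : FreeGroup.lift a g = 1 := by
      ext1 x
      have h := lift_shS hS a c hc' g x 0
      have h0 : shS hS 0 x = x := Subtype.ext (sh_zero x.1)
      have h2 := hcon x.1 x.2
      have h3 : lineHom hS a c hc' x g 0 = 0 := by
        have h4 : Q x.1 g 0 = 0 := h2
        rw [hQ x.1 x.2] at h4
        exact h4
      rw [h3, h0] at h
      rw [h]
      rfl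
    rw [hlift] at h1
    apply Subtype.ext
    have h3 : toPermHom (SF F) (f g).1 = 1 := h1
    ext1 x
    exact congrArg (fun p : Equiv.Perm (SF F) => p x) h3

end build

end Pool.Agent.E8helper53.FM
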