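import Pool.Agent.E8helper53.FM.Zorn

/-!
The limit of minimal sets.
-/

set_option autoImplicit false
set_option linter.all false

namespace Pool.Agent.E8helper53.FM

open Pool.Agent.Helper894.FS

section

variable {A : Type} [Finite A] {S : Set (ℤ → A)} {r κ : ℕ}

/-- the points of `Y` without the block `v` -/
def Avoid {A : Type} (Y : Set (ℤ → A)) {n : ℕ} (v : Fin n → A) : Set (ℤ → A) :=
  {x | x ∈ Y ∧ ∀ j : ℤ, ¬ ∀ i : Fin n, x (j + (i : ℕ)) = v i}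

theorem avoid_cl {Y : Set (ℤ → A)} (hY : Cl Y) {n : ℕ} (v : Fin n → A) : Cl (Avoid Y v) := by
  intro x hx
  refine ⟨hY x fun R => ?_, fun j hj => ?_⟩
  · obtain ⟨y, hy, h⟩ := hx R
    exact ⟨y, hy.1, h⟩
  · obtain ⟨y, hy, h⟩ := hx (j.natAbs + n)
    refine hy.2 j fun i => ?_
    rw [h (j + (i : ℕ)) (by
      have h1 := abs_add_le j ((i : ℕ) : ℤ)
      have h2 : |((i : ℕ) : ℤ)| ≤ n := by
        rw [Nat.abs_cast]
        exact_mod_cast i.2.le
      push_cast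
      linarith)]
    exact hj i

theorem avoid_inv {Y : Set (ℤ → A)} (hY : Inv Y) {n : ℕ} (v : Fin n → A) : Inv (Avoid Y v) := by
  intro k x hx
  refine ⟨hY k x hx.1, fun j hj => hx.2 (j + k) fun i => ?_⟩
  have := hj i
  simp only [sh] at this
  rw [← this]
  congr 1
  ring

theorem exists_triv (D : LineAct A S r κ) {Y : Set (ℤ → A)}
    (hf : ∀ Z ⊆ Y, Cl Z → Inv Z → Z ≠ Y → ∃ g : F2, g ≠ 1 ∧ D.Triv g Z) (hYc : Cl Y) (hYi : Inv Y)
    {n : ℕ} (s : Finset (Fin n → A)) :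
    ∃ g : F2, g ≠ 1 ∧ ∀ v ∈ s, Avoid Y v ≠ Y → D.Triv g (Avoid Y v) := by
  classical
  induction s using Finset.induction_on with
  | empty => exact ⟨FreeGroup.of true, FreeGroup.of_ne_one _, fun v hv => absurd hv (by simp)⟩
  | insert v s hv ih =>
    obtain ⟨g, hg, hgs⟩ := ih
    by_cases h : Avoid Y v = Y
    · refine ⟨g, hg, fun w hw hne => ?_⟩
      rcases Finset.mem_insert.1 hw with rfl | hw
      · exact absurd h hne
      · exact hgs w hw hne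
    · obtain ⟨g', hg', hgv⟩ := hf (Avoid Y v) (fun x hx => hx.1) (avoid_cl hYc v) (avoid_inv hYi v) h
      obtain ⟨p, q, hpq⟩ := JA.twist g g' hg hg'
      refine ⟨_, hpq, fun w hw hne => ?_⟩
      rcases Finset.mem_insert.1 hw with rfl | hw
      · intro x hx
        simp only [map_mul, map_inv, hgv x hx]
        group
      · intro x hx
        simp only [map_mul, map_inv, hgs w hw hne x hx]
        group

/-- words of length `n` in `Y` all occur in all points of `M` -/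
def SameBlocks {A : Type} (n : ℕ) (M Y : Set (ℤ → A)) : Prop :=
  ∀ x ∈ M, ∀ y ∈ Y, ∀ k : ℤ, ∃ j : ℤ, ∀ i : ℕ, i < n → x (j + i) = y (k + i)

theorem main (D : LineAct A S r κ) (hSc : Cl S) (hSi : Inv S)
    (hf : ∀ g : F2, g ≠ 1 → ∃ x ∈ S, D.Q x g 0 ≠ 0)
    (hB : ∃ G₀ : Finset F2, (∀ g ∈ G₀, g ≠ 1) ∧
      ∀ π : F2 →* Equiv.Perm ℤ, Disp r π → ∀ c : ℤ, ∃ g ∈ G₀, Bar π g c) :
    ∃ Y ⊆ S, Cl Y ∧ Inv Y ∧ (∀ g : F2, g ≠ 1 → ∃ x ∈ Y, D.Q x g 0 ≠ 0) ∧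
      (∃ Z ⊆ Y, Z.Nonempty ∧ Cl Z ∧ Inv Z ∧ Z ≠ Y) ∧
      ∀ n : ℕ, ∃ M ⊆ Y, MinSub M ∧ SameBlocks n M Y := by
  classical
  obtain ⟨Y, hYS, hYc, hYi, hY, hmin⟩ := zornT hSc {p | ∃ g : F2, g ≠ 1 ∧ p = fun x => D.Q x g 0 ≠ 0}
    (by rintro p ⟨g, hg, rfl⟩; exact D.move_LC g) hSc hSi le_rfl
    (by rintro p ⟨g, hg, rfl⟩; exact hf g hg)
  have hfY : ∀ g : F2, g ≠ 1 → ∃ x ∈ Y, D.Q x g 0 ≠ 0 := fun g hg => hY _ ⟨g, hg, rfl⟩
  have hprop : ∀ Z ⊆ Y, Cl Z → Inv Z → Z ≠ Y → ∃ g : F2, g ≠ 1 ∧ D.Triv g Z := by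
    intro Z hZ hZc hZi hne
    by_contra hcon
    push Not at hcon
    apply hne
    refine hmin Z hZ hZc hZi ?_
    rintro p ⟨g, hg, rfl⟩
    by_contra hc
    push Not at hc
    exact hcon g hg (D.triv_of hZi (hZ.trans hYS) g hc)
  have hnb : ∀ g : F2, g ≠ 1 → ∃ x ∈ Y, ∀ n : ℤ, ¬ Bar (D.Q x) g n := fun g hg =>
    exists_nobar D hSc hSi hYc hYi hYS hfY hg
  have hCcl : ∀ g : F2, Cl {x | x ∈ Y ∧ ∀ n : ℤ, ¬ Bar (D.Q x) g n} := by
    intro g x hx
    have hxY : x ∈ Y := hYc x fun R => by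
      obtain ⟨y, hy, h⟩ := hx R
      exact ⟨y, hy.1, h⟩
    refine ⟨hxY, fun n hn => ?_⟩
    obtain ⟨y, hy, h⟩ := hx (n.natAbs + (2 * (g.norm * r) + κ))
    refine hy.2 n (D.bar_loc hSi g n (hYS hxY) (hYS hy.1) (fun i hi => (h i ?_).symm) hn)
    push_cast
    exact hi
  have hCinv : ∀ g : F2, Inv {x | x ∈ Y ∧ ∀ n : ℤ, ¬ Bar (D.Q x) g n} := by
    intro g k x hx
    refine ⟨hYi k x hx.1, fun n hn => hx.2 (n + k) ?_⟩
    rwa [D.bar_sh (hYS hx.1)] at hn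
  refine ⟨Y, hYS, hYc, hYi, hfY, ?_, ?_⟩
  · obtain ⟨G₀, hG1, hG2⟩ := hB
    obtain ⟨x, hx, -⟩ := hfY (FreeGroup.of true) (FreeGroup.of_ne_one _)
    obtain ⟨g, hg, hb⟩ := hG2 (D.Q x) (D.disp x (hYS hx)) 0
    obtain ⟨z, hz, hzn⟩ := hnb g (hG1 g hg)
    refine ⟨{x | x ∈ Y ∧ ∀ n : ℤ, ¬ Bar (D.Q x) g n}, fun y hy => hy.1, ⟨z, hz, hzn⟩, hCcl g, hCinv g, ?_⟩
    intro he
    have : x ∈ {x | x ∈ Y ∧ ∀ n : ℤ, ¬ Bar (D.Q x) g n} := by rw [he]; exact hx
    exact this.2 0 hb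
  · intro n
    haveI : Fintype (Fin n → A) := Fintype.ofFinite _
    obtain ⟨g, hg, hgt⟩ := exists_triv D hprop hYc hYi (Finset.univ : Finset (Fin n → A))
    obtain ⟨z, hz, hzn⟩ := hnb g hg
    obtain ⟨M, hM, hMm⟩ := exists_min (hCcl g) (hCinv g) ⟨z, hz, hzn⟩
    refine ⟨M, fun x hx => (hM hx).1, hMm, ?_⟩
    intro x hx y hy k
    have hne : Avoid Y (fun i : Fin n => y (k + (i : ℕ))) ≠ Y := by
      intro he
      have : y ∈ Avoid Y (fun i : Fin n => y (k + (i : ℕ))) := by rw [he]; exact hy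
      exact this.2 k fun i => rfl
    have ht := hgt _ (Finset.mem_univ _) hne
    by_contra hcon
    push Not at hcon
    have hxA : x ∈ Avoid Y (fun i : Fin n => y (k + (i : ℕ))) := by
      refine ⟨(hM hx).1, fun j hj => ?_⟩
      obtain ⟨i, hi, hne⟩ := hcon j
      exact hne (hj ⟨i, hi⟩)
    apply (hM hx).2 0
    rw [Bar, ht x hxA]
    exact ⟨rfl, fun y hy => hy, fun y hy => hy⟩

/-- if all blocks of `Y` occur in the closed set `M` then `Y` is a subset of `M` -/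
theorem sub_of_blocks {M Y : Set (ℤ → A)} (hM : Cl M) (hMi : Inv M) (hn : M.Nonempty)
    (h : ∀ n : ℕ, SameBlocks n M Y) : Y ⊆ M := by
  intro y hy
  refine hM y fun R => ?_
  obtain ⟨x, hx⟩ := hn
  obtain ⟨j, hj⟩ := h (2 * R + 1) x hx y hy (-(R : ℤ))
  refine ⟨sh (j + R) x, hMi _ x hx, fun i hi => ?_⟩
  rw [abs_le] at hi
  have := hj (i + R).toNat (by omega)
  simp only [sh]
  have e : (((i + R).toNat : ℕ) : ℤ) = i + R := by omega
  rw [e] at this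
  rw [show i + (j + R) = j + (i + R) by ring, this]
  congr 1
  ring

theorem SameBlocks.mono {M Y : Set (ℤ → A)} {m n : ℕ} (h : SameBlocks n M Y) (hmn : m ≤ n) :
    SameBlocks m M Y := by
  intro x hx y hy k
  obtain ⟨j, hj⟩ := h x hx y hy k
  exact ⟨j, fun i hi => hj i (by omega)⟩

/-- `Y` is a proper limit of minimal subsets. -/
def IsLimit {A : Type} (Y : Set (ℤ → A)) : Prop :=
  Cl Y ∧ Inv Y ∧ (∃ Z ⊆ Y, Z.Nonempty ∧ Cl Z ∧ Inv Z ∧ Z ≠ Y) ∧
    ∀ n : ℕ, ∃ M ⊆ Y, MinSub M ∧ SameBlocks n M Y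

/-- a limit has infinitely many minimal subsets -/
theorem IsLimit.infinite {Y : Set (ℤ → A)} (h : IsLimit Y) :
    ¬ {M : Set (ℤ → A) | M ⊆ Y ∧ MinSub M}.Finite := by
  classical
  obtain ⟨hc, hi, ⟨Z, hZ, hZn, hZc, hZi, hne⟩, hM⟩ := h
  intro hfin
  have key : ∀ M : Set (ℤ → A), M ⊆ Y → MinSub M → ∃ n : ℕ, ¬ SameBlocks n M Y := by
    intro M hMY hMm
    by_contra hcon
    push Not at hcon
    have h1 : M = Y := subset_antisymm hMY (sub_of_blocks hMm.2.1 hMm.2.2.1 hMm.1 hcon)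
    subst h1
    exact hne (hMm.2.2.2 Z hZ hZn hZc hZi)
  choose! N hN using key
  set T := hfin.toFinset with hT
  obtain ⟨M, hMY, hMm, hs⟩ := hM (T.sup N)
  refine hN M hMY hMm (hs.mono ?_)
  exact Finset.le_sup (f := N) (by rw [hT, Set.Finite.mem_toFinset]; exact ⟨hMY, hMm⟩)

/-- a limit is uncountable -/
theorem IsLimit.uncountable {Y : Set (ℤ → A)} (h : IsLimit Y) : ¬ Y.Countable := by
  intro hcount
  obtain ⟨hc, hi, ⟨Z, hZ, hZn, hZc, hZi, hne⟩, hM⟩ := h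
  letI : TopologicalSpace A := ⊥
  haveI : DiscreteTopology A := ⟨rfl⟩
  have hYc : IsClosed Y := (cl_iff Y).2 hc
  haveI : CompactSpace Y := isCompact_iff_compactSpace.1 hYc.isCompact
  haveI : Countable Y := hcount.to_subtype
  haveI : Nonempty Y := by
    obtain ⟨z, hz⟩ := hZn
    exact ⟨⟨z, hZ hz⟩⟩
  obtain ⟨y, hy⟩ := nonempty_interior_of_iUnion_of_closed (f := fun y : Y => ({y} : Set Y))
    (fun y => isClosed_singleton) (by
      ext y
      simp)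
  -- the point is isolated
  have hiso : ∃ R : ℕ, ∀ z ∈ Y, (∀ i : ℤ, |i| ≤ R → z i = y.1 i) → z = y.1 := by
    have h1 : IsOpen ({y} : Set Y) := by
      obtain ⟨z, hz⟩ := hy
      have h2 : z = y := Set.mem_singleton_iff.1 (interior_subset hz)
      subst h2
      have h3 : interior ({z} : Set Y) = {z} := subset_antisymm interior_subset (by
        intro w hw
        rw [Set.mem_singleton_iff] at hw
        subst hw
        exact hz)
      rw [← h3]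
      exact isOpen_interior
    obtain ⟨U, hU, hU2⟩ := isOpen_induced_iff.1 h1
    have hyU : y.1 ∈ U := by
      have : y ∈ Subtype.val ⁻¹' U := by rw [hU2]; rfl
      exact this
    obtain ⟨I, u, hu, hsub⟩ := isOpen_pi_iff.1 hU y.1 hyU
    refine ⟨I.sup fun i => i.natAbs, fun z hz hzy => ?_⟩
    have h2 : z ∈ U := by
      apply hsub
      intro i hi
      rw [hzy i (by
        have h1 : i.natAbs ≤ I.sup fun i => i.natAbs := Finset.le_sup (f := fun i : ℤ => i.natAbs) hi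
        rw [← Int.natCast_natAbs]
        exact_mod_cast h1)]
      exact (hu i hi).2
    have h3 : (⟨z, hz⟩ : Y) ∈ Subtype.val ⁻¹' U := h2
    rw [hU2] at h3
    exact congrArg Subtype.val h3
  obtain ⟨R, hR⟩ := hiso
  have hmem : ∀ M : Set (ℤ → A), M ⊆ Y → MinSub M → SameBlocks (2 * R + 1) M Y → y.1 ∈ M := by
    intro M hMY hMm hs
    obtain ⟨x, hx⟩ := hMm.1
    obtain ⟨j, hj⟩ := hs x hx y.1 y.2 (-(R : ℤ))
    have h1 := hMm.2.2.1 (j + R) x hx
    have h2 := hR _ (hMY h1) (by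
      intro i hi
      rw [abs_le] at hi
      have := hj (i + R).toNat (by omega)
      simp only [sh]
      have e : (((i + R).toNat : ℕ) : ℤ) = i + R := by omega
      rw [e] at this
      rw [show i + (j + R) = j + (i + R) by ring, this]
      congr 1
      ring)
    rw [← h2]
    exact h1
  obtain ⟨M, hMY, hMm, hs⟩ := hM (2 * R + 1)
  have hyM := hmem M hMY hMm hs
  have hall : ∀ n : ℕ, SameBlocks n M Y := by
    intro n
    obtain ⟨M', hMY', hMm', hs'⟩ := hM (max n (2 * R + 1))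
    have hyM' := hmem M' hMY' hMm' (hs'.mono (le_max_right _ _))
    have hI : (M ∩ M').Nonempty := ⟨y.1, hyM, hyM'⟩
    have hIc : Cl (M ∩ M') := by
      intro x hx
      refine ⟨hMm.2.1 x fun R => ?_, hMm'.2.1 x fun R => ?_⟩
      · obtain ⟨w, hw, h⟩ := hx R
        exact ⟨w, hw.1, h⟩
      · obtain ⟨w, hw, h⟩ := hx R
        exact ⟨w, hw.2, h⟩
    have hIi : Inv (M ∩ M') := fun k x hx => ⟨hMm.2.2.1 k x hx.1, hMm'.2.2.1 k x hx.2⟩
    have e1 := hMm.2.2.2 _ Set.inter_subset_left hI hIc hIi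
    have e2 := hMm'.2.2.2 _ Set.inter_subset_right hI hIc hIi
    have e3 : M = M' := e1.symm.trans e2
    rw [e3]
    exact hs'.mono (le_max_left _ _)
  have h1 : M = Y := subset_antisymm hMY (sub_of_blocks hMm.2.1 hMm.2.2.1 hMm.1 hall)
  subst h1
  exact hne (hMm.2.2.2 Z hZ hZn hZc hZi)

end

end Pool.Agent.E8helper53.FM
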