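import Pool.Agent.E8helper53.FM.Core

/-!
Limits of minimal subshifts have a dense orbit.
-/

set_option autoImplicit false
set_option linter.all false

namespace Pool.Agent.E8helper53.FM

open Pool.Agent.Helper894.FS

section

variable {A : Type} [Finite A]

theorem exists_cyl [TopologicalSpace A] [DiscreteTopology A] {Y : Set (ℤ → A)} {U : Set Y}
    (hU : IsOpen U) {x : Y} (hx : x ∈ U) :
    ∃ R : ℕ, ∀ z : Y, (∀ i : ℤ, |i| ≤ R → z.1 i = x.1 i) → z ∈ U := by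
  obtain ⟨V, hV, hV2⟩ := isOpen_induced_iff.1 hU
  have hxV : x.1 ∈ V := by
    have : x ∈ Subtype.val ⁻¹' V := by rw [hV2]; exact hx
    exact this
  obtain ⟨I, u, hu, hsub⟩ := isOpen_pi_iff.1 hV x.1 hxV
  refine ⟨I.sup fun i => i.natAbs, fun z hzx => ?_⟩
  have h2 : z.1 ∈ V := by
    apply hsub
    intro i hi
    rw [hzx i (by
      have h1 : i.natAbs ≤ I.sup fun i => i.natAbs := Finset.le_sup (f := fun i : ℤ => i.natAbs) hi
      rw [← Int.natCast_natAbs]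
      exact_mod_cast h1)]
    exact (hu i hi).2
  have h3 : z ∈ Subtype.val ⁻¹' V := h2
  rwa [hV2] at h3

/-- a limit of minimal subshifts has a dense orbit -/
theorem IsLimit.transitive {Y : Set (ℤ → A)} (h : IsLimit Y) : ∃ z ∈ Y, ∀ n : ℕ, SameBlocks n {z} Y := by
  obtain ⟨hc, hi, ⟨Z, hZ, hZn, hZc, hZi, hne⟩, hM⟩ := h
  letI : TopologicalSpace A := ⊥
  haveI : DiscreteTopology A := ⟨rfl⟩
  have hYc : IsClosed Y := (cl_iff Y).2 hc
  haveI : CompactSpace Y := isCompact_iff_compactSpace.1 hYc.isCompact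
  haveI : Nonempty Y := by
    obtain ⟨z, hz⟩ := hZn
    exact ⟨⟨z, hZ hz⟩⟩
  let ι := Σ n : ℕ, {v : Fin n → A // ∃ y ∈ Y, ∃ k : ℤ, ∀ i : Fin n, y (k + (i : ℕ)) = v i}
  haveI : Countable ι := inferInstance
  have hopen : ∀ s : ι, IsOpen {x : Y | ∃ j : ℤ, ∀ i : Fin s.1, x.1 (j + (i : ℕ)) = s.2.1 i} := by
    intro s
    have e : {x : Y | ∃ j : ℤ, ∀ i : Fin s.1, x.1 (j + (i : ℕ)) = s.2.1 i} =
        ⋃ j : ℤ, ⋂ i : Fin s.1, {x : Y | x.1 (j + (i : ℕ)) = s.2.1 i} := by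
      ext x
      simp
    rw [e]
    refine isOpen_iUnion fun j => isOpen_iInter_of_finite fun i => ?_
    have h1 : Continuous (fun x : Y => x.1 (j + ((i : ℕ) : ℤ))) :=
      (continuous_apply (j + ((i : ℕ) : ℤ))).comp continuous_subtype_val
    exact (isOpen_discrete ({s.2.1 i} : Set A)).preimage h1
  have hdense : ∀ s : ι, Dense {x : Y | ∃ j : ℤ, ∀ i : Fin s.1, x.1 (j + (i : ℕ)) = s.2.1 i} := by
    rintro ⟨n, v, y₀, hy₀, k₀, hv⟩
    rw [dense_iff_inter_open]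
    rintro U hU ⟨x, hx⟩
    obtain ⟨R, hR⟩ := exists_cyl hU hx
    obtain ⟨M, hMY, hMm, hs⟩ := hM (max (2 * R + 1) n)
    obtain ⟨m, hm⟩ := hMm.1
    obtain ⟨j, hj⟩ := hs m hm x.1 x.2 (-(R : ℤ))
    have hz := hMm.2.2.1 (j + R) m hm
    refine ⟨⟨sh (j + R) m, hMY hz⟩, hR _ ?_, ?_⟩
    · intro i hi
      rw [abs_le] at hi
      have := hj (i + R).toNat (by omega)
      simp only [sh]
      have e : (((i + R).toNat : ℕ) : ℤ) = i + R := by omega
      rw [e] at this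
      rw [show i + (j + R) = j + (i + R) by ring, this]
      congr 1
      ring
    · obtain ⟨j', hj'⟩ := hs _ hz y₀ hy₀ k₀
      exact ⟨j', fun i => (hj' i (lt_of_lt_of_le i.2 (le_max_right _ _))).trans (hv i)⟩
  have hall := dense_iInter_of_isOpen hopen hdense
  obtain ⟨z, hz⟩ := hall.nonempty
  rw [Set.mem_iInter] at hz
  refine ⟨z.1, z.2, fun n x hx y hy k => ?_⟩
  rw [Set.mem_singleton_iff] at hx
  subst hx
  obtain ⟨j, hj⟩ := hz ⟨n, fun i => y (k + (i : ℕ)), y, hy, k, fun i => rfl⟩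
  exact ⟨j, fun i hi => hj ⟨i, hi⟩⟩

/-- if every point of `S` is in a minimal subset then `S` contains no limits -/
theorem IsLimit.not_min {Y : Set (ℤ → A)} (h : IsLimit Y) :
    ∃ z ∈ Y, (∀ n : ℕ, SameBlocks n {z} Y) ∧ ∀ M : Set (ℤ → A), MinSub M → z ∉ M := by
  obtain ⟨z, hz, hb⟩ := h.transitive
  refine ⟨z, hz, hb, fun M hM hzM => ?_⟩
  obtain ⟨hc, hi, ⟨Z, hZ, hZn, hZc, hZi, hne⟩, -⟩ := h
  have hYM : Y ⊆ M := by
    intro y hy
    refine hM.2.1 y fun R => ?_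
    obtain ⟨j, hj⟩ := hb (2 * R + 1) z rfl y hy (-(R : ℤ))
    refine ⟨sh (j + R) z, hM.2.2.1 _ z hzM, fun i hi => ?_⟩
    rw [abs_le] at hi
    have := hj (i + R).toNat (by omega)
    simp only [sh]
    have e : (((i + R).toNat : ℕ) : ℤ) = i + R := by omega
    rw [e] at this
    rw [show i + (j + R) = j + (i + R) by ring, this]
    congr 1
    ring
  have e1 := hM.2.2.2 Z (hZ.trans hYM) hZn hZc hZi
  exact hne (subset_antisymm hZ (by rw [e1]; exact hYM))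

end

end Pool.Agent.E8helper53.FM
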