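import Pool.Agent.E8helper53.FM.Bnd
import Pool.Agent.E8helper53.FM.Trans

/-!
Free subgroups of the topological full group and limits of minimal subshifts.
-/

set_option autoImplicit false
set_option linter.all false

namespace Pool.Agent.E8helper53.FM

open Pool.Agent.Helper894.FS

section

variable {A : Type} [Finite A]

theorem cl_SF (F : Set (List A)) : Cl (SF F) := by
  letI : TopologicalSpace A := ⊥
  haveI : DiscreteTopology A := ⟨rfl⟩
  exact (cl_iff _).1 (JG1.isClosed_SF8706 F)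

theorem structure_thm {F : Set (List A)} (hF : ∀ a : A, [a, a] ∈ F) (hfree : HasFree (FullSF F)) :
    ∃ Y ⊆ SF F, IsLimit Y ∧
      ∃ ε : ℝ, 0 < ε ∧ ∃ n₀ : ℕ, ∀ n ≥ n₀, ε * Real.sqrt n < Real.log (numBlocks Y n) := by
  obtain ⟨r, κ, D, hD⟩ := exists_act hF hfree
  have hS : Inv (SF F) := fun k x hx => sh_mem k hx
  obtain ⟨Y, hYS, hYc, hYi, hYf, hZ, hM⟩ := main D (cl_SF F) hS hD
    (JE.barriers r JK.card_pairs (fun ε hε => tail_final r ε hε))
  exact ⟨Y, hYS, ⟨hYc, hYi, hZ, hM⟩, many_blocks D hYi hYS hYf⟩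

theorem numBlocks_le {M Y : Set (ℤ → A)} {n : ℕ} (hM : M.Nonempty) (h : SameBlocks n M Y) :
    numBlocks Y n ≤ numBlocks M n := by
  unfold numBlocks
  have : Finite {w : Fin n → A // ∃ x ∈ M, ∃ k : ℤ, ∀ i : Fin n, x (k + (i : ℕ)) = w i} :=
    Subtype.finite
  apply Nat.card_le_card_of_injective
    (fun w : {w : Fin n → A // ∃ x ∈ Y, ∃ k : ℤ, ∀ i : Fin n, x (k + (i : ℕ)) = w i} =>
      (⟨w.1, by
        obtain ⟨y, hy, k, hk⟩ := w.2
        obtain ⟨x, hx⟩ := hM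
        obtain ⟨j, hj⟩ := h x hx y hy k
        exact ⟨x, hx, j, fun i => (hj i i.2).trans (hk i)⟩⟩ :
        {w : Fin n → A // ∃ x ∈ M, ∃ k : ℤ, ∀ i : Fin n, x (k + (i : ℕ)) = w i}))
  intro v w hvw
  apply Subtype.ext
  exact congrArg (fun u => u.1) hvw

theorem no_free_uniform {F : Set (List A)} (hF : ∀ a : A, [a, a] ∈ F) (E : Set (Set (ℤ → A)))
    (hE : E.Finite)
    (h : ∀ δ : ℝ, 0 < δ → ∀ n₀ : ℕ, ∃ n ≥ n₀, ∀ M ⊆ SF F, MinSub M → M ∉ E →
      Real.log (numBlocks M n) ≤ δ * Real.sqrt n) : ¬ HasFree (FullSF F) := by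
  classical
  intro hfree
  obtain ⟨Y, hYS, hL, ε, hε, n₀, hn₀⟩ := structure_thm hF hfree
  obtain ⟨hc, hi, ⟨Z, hZ, hZn, hZc, hZi, hne⟩, hM⟩ := hL
  have key : ∀ M : Set (ℤ → A), ∃ n : ℕ, M ⊆ Y → MinSub M → ¬ SameBlocks n M Y := by
    intro M
    by_contra hcon
    push Not at hcon
    have hMY := (hcon 0).1
    have hMm := (hcon 0).2.1
    have h1 : M = Y := subset_antisymm hMY
      (sub_of_blocks hMm.2.1 hMm.2.2.1 hMm.1 fun n => (hcon n).2.2)
    subst h1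
    exact hne (hMm.2.2.2 Z hZ hZn hZc hZi)
  choose N hN using key
  obtain ⟨n, hn, hlog⟩ := h ε hε (max n₀ (hE.toFinset.sup N))
  obtain ⟨M, hMY, hMm, hs⟩ := hM n
  have hME : M ∉ E := by
    intro hME
    refine hN M hMY hMm (hs.mono ?_)
    exact (Finset.le_sup (f := N) (hE.mem_toFinset.2 hME)).trans ((le_max_right _ _).trans hn)
  have h1 := hlog M (hMY.trans hYS) hMm hME
  have h2 := hn₀ n ((le_max_left _ _).trans hn)
  have h3 := numBlocks_le hMm.1 hs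
  have h4 : 0 < numBlocks Y n := by
    have : Finite {w : Fin n → A // ∃ x ∈ Y, ∃ k : ℤ, ∀ i : Fin n, x (k + (i : ℕ)) = w i} :=
      Subtype.finite
    obtain ⟨z, hz⟩ := hZn
    haveI : Nonempty {w : Fin n → A // ∃ x ∈ Y, ∃ k : ℤ, ∀ i : Fin n, x (k + (i : ℕ)) = w i} :=
      ⟨⟨fun i => z (0 + (i : ℕ)), z, hZ hz, 0, fun i => rfl⟩⟩
    exact Nat.card_pos
  have h5 : Real.log (numBlocks Y n) ≤ Real.log (numBlocks M n) :=
    Real.log_le_log (by exact_mod_cast h4) (by exact_mod_cast h3)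
  linarith

/-- the closure of the union of the minimal subsets of `S` -/
def MinClosure {A : Type} (S : Set (ℤ → A)) : Set (ℤ → A) :=
  {x | ∀ R : ℕ, ∃ M ⊆ S, MinSub M ∧ ∃ y ∈ M, ∀ i : ℤ, |i| ≤ R → y i = x i}

theorem no_free_countable {F : Set (List A)} (hF : ∀ a : A, [a, a] ∈ F)
    (h : (MinClosure (SF F)).Countable) : ¬ HasFree (FullSF F) := by
  intro hfree
  obtain ⟨Y, hYS, hL, -⟩ := structure_thm hF hfree
  apply hL.uncountable
  refine Set.Countable.mono (?_ : Y ⊆ MinClosure (SF F)) h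
  intro y hy R
  obtain ⟨M, hMY, hMm, hs⟩ := hL.2.2.2 (2 * R + 1)
  refine ⟨M, hMY.trans hYS, hMm, ?_⟩
  obtain ⟨x, hx⟩ := hMm.1
  obtain ⟨j, hj⟩ := hs x hx y hy (-(R : ℤ))
  refine ⟨sh (j + R) x, hMm.2.2.1 _ x hx, fun i hi => ?_⟩
  rw [abs_le] at hi
  have := hj (i + R).toNat (by omega)
  simp only [sh]
  have e : (((i + R).toNat : ℕ) : ℤ) = i + R := by omega
  rw [e] at this
  rw [show i + (j + R) = j + (i + R) by ring, this]
  congr 1
  ring

theorem no_free_semisimple {F : Set (List A)} (hF : ∀ a : A, [a, a] ∈ F)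
    (h : ∀ x ∈ SF F, ∃ M : Set (ℤ → A), MinSub M ∧ x ∈ M) : ¬ HasFree (FullSF F) := by
  intro hfree
  obtain ⟨Y, hYS, hL, -⟩ := structure_thm hF hfree
  obtain ⟨z, hz, -, hn⟩ := hL.not_min
  obtain ⟨M, hM, hzM⟩ := h z (hYS hz)
  exact hn M hM hzM

end

end Pool.Agent.E8helper53.FM
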