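import Pool.Agent.E8helper53.FM.Ind

/-!
Free subgroups force an orbit closure which is not tame and has infinitely many minimal subsets.
-/

set_option autoImplicit false
set_option linter.all false

namespace Pool.Agent.E8helper53.FM

open Pool.Agent.Helper894.FS

variable {A : Type} [Finite A]

theorem IsLimit.sub_minClosure {Y S : Set (ℤ → A)} (hYS : Y ⊆ S) (hL : IsLimit Y) :
    Y ⊆ MinClosure S := by
  intro y hy R
  obtain ⟨M, hMY, hMm, hs⟩ := hL.2.2.2 (2 * R + 1)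
  refine ⟨M, hMY.trans hYS, hMm, ?_⟩
  obtain ⟨x, hx⟩ := hMm.1
  obtain ⟨j, hj⟩ := hs x hx y hy (-(R : ℤ))
  refine ⟨sh (j + R) x, hMm.2.2.1 _ x hx, fun i hi => ?_⟩
  rw [abs_le] at hi
  have := hj (i + R).toNat (by omega)
  simp only [sh]
  have e : (((i + R).toNat : ℕ) : ℤ) = i + R := by omega
  rw [e] at this
  rw [show i + (j + R) = j + (i + R) by ring, this]
  congr 1
  ring

theorem minClosure_sub {S : Set (ℤ → A)} (hS : Cl S) : MinClosure S ⊆ S := by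
  intro x hx
  refine hS x fun R => ?_
  obtain ⟨M, hM, -, y, hy, h⟩ := hx R
  exact ⟨y, hM hy, h⟩

theorem orbCl_sub {S : Set (ℤ → A)} {z : ℤ → A} (hz : z ∈ MinClosure S) : OrbCl z ⊆ MinClosure S := by
  intro x hx R
  obtain ⟨k, hk⟩ := hx R
  obtain ⟨M, hM, hMm, y, hy, h⟩ := hz (k.natAbs + R)
  refine ⟨M, hM, hMm, sh k y, hMm.2.2.1 k y hy, fun i hi => ?_⟩
  rw [hk i hi]
  simp only [sh]
  rw [show i + k = k + i by ring]
  refine h (k + i) ?_
  have := abs_add_le k i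
  push_cast
  linarith

theorem not_tame_of_free {F : Set (List A)} (hF : ∀ a : A, [a, a] ∈ F) (h : HasFree (FullSF F)) :
    ∃ z ∈ MinClosure (SF F), ¬ {M : Set (ℤ → A) | M ⊆ OrbCl z ∧ MinSub M}.Finite ∧
      ∃ (n : ℕ) (v : Fin n → A) (J : Set ℤ), J.Infinite ∧
        ∀ I ⊆ J, ∃ x ∈ OrbCl z, ∀ j ∈ J, (Occ v x j ↔ j ∈ I) := by
  obtain ⟨Y, hYS, hL, -⟩ := structure_thm hF h
  obtain ⟨z, hz, hd⟩ := hL.transitive
  have e : Y = OrbCl z := orbCl_eq hL.1 hL.2.1 hz hd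
  refine ⟨z, hL.sub_minClosure hYS hz, ?_, ?_⟩
  · rw [← e]
    exact hL.infinite
  · rw [← e]
    exact hL.indep

theorem no_free_orbits {F : Set (List A)} (hF : ∀ a : A, [a, a] ∈ F)
    (h : ∀ z ∈ MinClosure (SF F), Tame (OrbCl z) ∨
      {M : Set (ℤ → A) | M ⊆ OrbCl z ∧ MinSub M}.Finite) :
    ¬ HasFree (FullSF F) := by
  intro hfree
  obtain ⟨z, hz, h1, n, v, J, hJ, hI⟩ := not_tame_of_free hF hfree
  rcases h z hz with ht | hf
  · exact not_tame v J hJ hI ht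
  · exact h1 hf

theorem no_free_tame {F : Set (List A)} (hF : ∀ a : A, [a, a] ∈ F) (h : Tame (MinClosure (SF F))) :
    ¬ HasFree (FullSF F) :=
  no_free_orbits hF fun z hz => Or.inl (h.mono (orbCl_sub hz))

end Pool.Agent.E8helper53.FM
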