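import Pool.Agent.E8helper53.FM.Fin

/-!
Limits of minimal subshifts have infinite independence sets.
-/

set_option autoImplicit false
set_option linter.all false

namespace Pool.Agent.E8helper53.FM

open Pool.Agent.Helper894.FS

/-- the block `v` occurs in `x` at the place `k` -/
def Occ {A : Type} {n : ℕ} (v : Fin n → A) (x : ℤ → A) (k : ℤ) : Prop :=
  ∀ i : Fin n, x (k + (i : ℕ)) = v i

section

variable {A : Type}

theorem occ_congr {n : ℕ} (v : Fin n → A) (x y : ℤ → A) (k l : ℤ)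
    (h : ∀ i : ℤ, 0 ≤ i → i < n → x (k + i) = y (l + i)) : Occ v x k ↔ Occ v y l := by
  constructor
  · intro hx i
    rw [← h (i : ℕ) (by positivity) (by exact_mod_cast i.2)]
    exact hx i
  · intro hx i
    rw [h (i : ℕ) (by positivity) (by exact_mod_cast i.2)]
    exact hx i

theorem nested [Finite A] {t : ℕ → Set (ℤ → A)} (h1 : ∀ n, t (n + 1) ⊆ t n) (h2 : ∀ n, (t n).Nonempty)
    (h3 : ∀ n, Cl (t n)) : (⋂ n, t n).Nonempty := by
  letI : TopologicalSpace A := ⊥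
  haveI : DiscreteTopology A := ⟨rfl⟩
  exact IsCompact.nonempty_iInter_of_sequence_nonempty_isCompact_isClosed t h1 h2
    ((cl_iff _).2 (h3 0)).isCompact fun n => (cl_iff _).2 (h3 n)

/-- blocks occur in points of minimal sets with bounded gaps -/
theorem syndetic [Finite A] {M : Set (ℤ → A)} (hM : MinSub M) {m : ℤ → A} (hm : m ∈ M) {n : ℕ}
    (v : Fin n → A) {t₀ : ℤ} (h0 : Occ v m t₀) :
    ∃ R : ℕ, ∀ c : ℤ, ∃ t : ℤ, c ≤ t ∧ t < c + R ∧ Occ v m t := by
  by_contra hcon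
  push Not at hcon
  have hne : (⋂ k : ℕ, {x | x ∈ M ∧ ∀ t : ℤ, |t| ≤ k → ¬ Occ v x t}).Nonempty := by
    apply nested
    · intro k x hx
      exact ⟨hx.1, fun t ht => hx.2 t (by push_cast; linarith)⟩
    · intro k
      obtain ⟨c, hc⟩ := hcon (2 * k + 1)
      refine ⟨sh (c + k) m, hM.2.2.1 _ m hm, fun t ht => ?_⟩
      rw [abs_le] at ht
      intro ho
      refine hc (t + (c + k)) (by omega) (by push_cast; omega) fun i => ?_
      rw [← ho i]
      simp only [sh]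
      congr 1
      ring
    · intro k x hx
      refine ⟨hM.2.1 x fun R => ?_, fun t ht ho => ?_⟩
      · obtain ⟨y, hy, h⟩ := hx R
        exact ⟨y, hy.1, h⟩
      · obtain ⟨y, hy, h⟩ := hx (k + n)
        refine hy.2 t ht fun i => ?_
        rw [h (t + (i : ℕ)) (by
          have h1 := abs_add_le t ((i : ℕ) : ℤ)
          have h2 : |((i : ℕ) : ℤ)| ≤ n := by
            rw [Nat.abs_cast]
            exact_mod_cast i.2.le
          push_cast
          linarith)]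
        exact ho i
  obtain ⟨x, hx⟩ := hne
  rw [Set.mem_iInter] at hx
  have hxA : x ∈ Avoid M v := ⟨(hx 0).1, fun j hj => (hx j.natAbs).2 j (by
    rw [Int.natCast_natAbs]) hj⟩
  have he : Avoid M v = M := hM.2.2.2 _ (fun y hy => hy.1) ⟨x, hxA⟩ (avoid_cl hM.2.1 v)
    (avoid_inv hM.2.2.1 v)
  have : m ∈ Avoid M v := by rw [he]; exact hm
  exact this.2 t₀ h0

/-- all patterns on `J` occur in `z`, at places where `v` occurs -/
def Pat {A : Type} {n : ℕ} (v : Fin n → A) (z : ℤ → A) (J : Finset ℤ) : Prop :=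
  ∀ I ⊆ J, ∃ q : ℤ, Occ v z q ∧ ∀ j ∈ J, (Occ v z (q + j) ↔ j ∈ I)

theorem step [Finite A] {Y : Set (ℤ → A)} (hY : IsLimit Y) {z : ℤ → A} (hz : z ∈ Y)
    (hd : ∀ n : ℕ, SameBlocks n {z} Y) {n : ℕ} (v : Fin n → A) {x₀ : ℤ → A} (hx₀ : x₀ ∈ Y)
    (hv : ∀ k : ℤ, ¬ Occ v x₀ k) (J : Finset ℤ) (hJ : Pat v z J) :
    ∃ j : ℤ, j ∉ J ∧ Pat v z (insert j J) := by
  classical
  choose! q hq1 hq2 using hJ
  obtain ⟨B, hB1, hB2⟩ : ∃ B : ℕ, (∀ I ⊆ J, |q I| ≤ B) ∧ ∀ I ⊆ J, ∀ j ∈ J, |q I + j| ≤ B := by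
    let T : Finset ℤ := J.powerset.image q ∪ (J.powerset ×ˢ J).image (fun p => q p.1 + p.2)
    have hT : ∀ t ∈ T, |t| ≤ ((T.sup fun t => t.natAbs : ℕ) : ℤ) := by
      intro t ht
      rw [← Int.natCast_natAbs]
      exact_mod_cast Finset.le_sup (f := fun t : ℤ => t.natAbs) ht
    refine ⟨T.sup fun t => t.natAbs, fun I hI => hT _ ?_, fun I hI j hj => hT _ ?_⟩
    · exact Finset.mem_union_left _ (Finset.mem_image.2 ⟨I, Finset.mem_powerset.2 hI, rfl⟩)
    · exact Finset.mem_union_right _ (Finset.mem_image.2 ⟨(I, j), Finset.mem_product.2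
        ⟨Finset.mem_powerset.2 hI, hj⟩, rfl⟩)
  obtain ⟨len, hlen⟩ : ∃ len : ℕ, len = 2 * B + n + 1 := ⟨_, rfl⟩
  obtain ⟨M, hMY, hMm, hMs⟩ := hY.2.2.2 len
  obtain ⟨m, hm⟩ := hMm.1
  obtain ⟨t₀, ht₀⟩ := hMs m hm z hz (-(B : ℤ))
  obtain ⟨R, hR⟩ := syndetic hMm hm (fun i : Fin len => z (-(B : ℤ) + (i : ℕ))) (t₀ := t₀)
    (fun i => ht₀ i i.2)
  obtain ⟨c, hc⟩ := hd (R + len + len) z rfl x₀ hx₀ 0
  have hfree : ∀ s : ℤ, c ≤ s → s < c + R + len → ¬ Occ v z s := by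
    intro s h1 h2 ho
    refine hv (s - c) fun i => ?_
    have hi := i.2
    have h3 := hc (s - c + ((i : ℕ) : ℤ)).toNat (by omega)
    have e : (((s - c + ((i : ℕ) : ℤ)).toNat : ℕ) : ℤ) = s - c + ((i : ℕ) : ℤ) := by omega
    rw [e, zero_add] at h3
    rw [← h3, ← ho i]
    congr 1
    ring
  obtain ⟨t, ht1, ht2, ht⟩ := hR (c + B + t₀)
  obtain ⟨d, hd'⟩ := hd ((t - t₀).natAbs + len) z rfl m (hMY hm) (min t₀ t)
  obtain ⟨a, ha⟩ : ∃ a : ℤ, a = d - min t₀ t := ⟨_, rfl⟩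
  have hzm : ∀ s : ℤ, min t₀ t ≤ s → s < min t₀ t + ((t - t₀).natAbs + len : ℕ) →
      z (s + a) = m s := by
    intro s h1 h2
    have h3 := hd' (s - min t₀ t).toNat (by omega)
    have e : (((s - min t₀ t).toNat : ℕ) : ℤ) = s - min t₀ t := by omega
    rw [e] at h3
    rw [ha, show s + (d - min t₀ t) = d + (s - min t₀ t) by ring, h3]
    congr 1
    ring
  have hsh0 : ∀ s : ℤ, |s| ≤ B → (Occ v z (s + (t₀ + a + B)) ↔ Occ v z s) := by
    intro s hs
    rw [abs_le] at hs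
    apply occ_congr
    intro i h1 h2
    have e1 := hzm (t₀ + (s + i + B)) (by omega) (by omega)
    have e2 := ht₀ (s + i + B).toNat (by omega)
    have e : (((s + i + B).toNat : ℕ) : ℤ) = s + i + B := by omega
    rw [e] at e2
    rw [show s + (t₀ + a + B) + i = t₀ + (s + i + B) + a by ring, e1, e2]
    congr 1
    ring
  have hsh1 : ∀ s : ℤ, |s| ≤ B → (Occ v z (s + (t + a + B)) ↔ Occ v z s) := by
    intro s hs
    rw [abs_le] at hs
    apply occ_congr
    intro i h1 h2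
    have e1 := hzm (t + (s + i + B)) (by omega) (by omega)
    have e2 := ht ⟨(s + i + B).toNat, by omega⟩
    have e : (((s + i + B).toNat : ℕ) : ℤ) = s + i + B := by omega
    simp only [e] at e2
    rw [show s + (t + a + B) + i = t + (s + i + B) + a by ring, e1, e2]
    congr 1
    ring
  have hfq : ∀ I ⊆ J, ¬ Occ v z (q I + (t - t₀)) := by
    intro I hI
    have h := hB1 I hI
    rw [abs_le] at h
    exact hfree _ (by omega) (by omega)
  have hnj : t - t₀ ∉ J := fun hj =>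
    hfq J (Finset.Subset.refl J) ((hq2 J (Finset.Subset.refl J) (t - t₀) hj).2 hj)
  refine ⟨t - t₀, hnj, fun I hI => ?_⟩
  have hIJ : I.erase (t - t₀) ⊆ J := by
    intro x hx
    rcases Finset.mem_insert.1 (hI (Finset.mem_of_mem_erase hx)) with h | h
    · exact absurd h (Finset.ne_of_mem_erase hx)
    · exact h
  by_cases hj : t - t₀ ∈ I
  · refine ⟨q (I.erase (t - t₀)) + (t₀ + a + B), (hsh0 _ (hB1 _ hIJ)).2 (hq1 _ hIJ), fun j' hj' => ?_⟩
    rcases Finset.mem_insert.1 hj' with h | h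
    · subst h
      simp only [hj, iff_true]
      rw [show q (I.erase (t - t₀)) + (t₀ + a + B) + (t - t₀) =
        q (I.erase (t - t₀)) + (t + a + B) by ring]
      exact (hsh1 _ (hB1 _ hIJ)).2 (hq1 _ hIJ)
    · rw [show q (I.erase (t - t₀)) + (t₀ + a + B) + j' =
          (q (I.erase (t - t₀)) + j') + (t₀ + a + B) by ring,
        hsh0 _ (hB2 _ hIJ j' h), hq2 _ hIJ j' h, Finset.mem_erase]
      have hne : j' ≠ t - t₀ := fun e => hnj (e ▸ h)
      simp [hne]
  · have hI' : I ⊆ J := by rwa [Finset.erase_eq_of_notMem hj] at hIJ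
    refine ⟨q I, hq1 I hI', fun j' hj' => ?_⟩
    rcases Finset.mem_insert.1 hj' with h | h
    · subst h
      simp only [hj, iff_false]
      exact hfq I hI'
    · exact hq2 I hI' j' h

/-- a limit of minimal subshifts is not tame: there are a block and an infinite set `J` of places such that for each
subset `I` of `J` there is a point in which the block occurs exactly at those places of `J` which are in `I` -/
theorem IsLimit.indep [Finite A] {Y : Set (ℤ → A)} (h : IsLimit Y) :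
    ∃ (n : ℕ) (v : Fin n → A) (J : Set ℤ), J.Infinite ∧
      ∀ I ⊆ J, ∃ x ∈ Y, ∀ j ∈ J, (Occ v x j ↔ j ∈ I) := by
  classical
  obtain ⟨z, hz, hd⟩ := h.transitive
  obtain ⟨hc, hi, ⟨Z, hZ, hZn, hZc, hZi, hne⟩, hM⟩ := id h
  obtain ⟨n, hn⟩ : ∃ n, ¬ SameBlocks n Z Y := by
    by_contra hcon
    push Not at hcon
    exact hne (subset_antisymm hZ (sub_of_blocks hZc hZi hZn hcon))
  simp only [SameBlocks] at hn
  push Not at hn
  obtain ⟨x₀, hx₀, y, hy, k, hk⟩ := hn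
  obtain ⟨v, hv0⟩ : ∃ v : Fin n → A, ∀ i, v i = y (k + (i : ℕ)) := ⟨_, fun _ => rfl⟩
  have hv : ∀ j : ℤ, ¬ Occ v x₀ j := by
    intro j hj
    obtain ⟨i, hi, hne⟩ := hk j
    exact hne (by rw [hj ⟨i, hi⟩, hv0])
  have h0 : Pat v z ∅ := by
    intro I hI
    obtain ⟨j, hj⟩ := hd n z rfl y hy k
    exact ⟨j, fun i => by rw [hv0]; exact hj i i.2, by simp⟩
  choose! f hf1 hf2 using step h hz hd v (hZ hx₀) hv
  obtain ⟨s, hs0, hs1⟩ : ∃ s : ℕ → Finset ℤ, s 0 = ∅ ∧ ∀ k, s (k + 1) = insert (f (s k)) (s k) :=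
    ⟨fun k => Nat.rec ∅ (fun _ J => insert (f J) J) k, rfl, fun _ => rfl⟩
  have hP : ∀ k, Pat v z (s k) := by
    intro k
    induction k with
    | zero => rw [hs0]; exact h0
    | succ k ih => rw [hs1]; exact hf2 _ ih
  have hcard : ∀ k, (s k).card = k := by
    intro k
    induction k with
    | zero => rw [hs0]; rfl
    | succ k ih => rw [hs1, Finset.card_insert_of_notMem (hf1 _ (hP k)), ih]
  have hmono : ∀ k, s k ⊆ s (k + 1) := by
    intro k
    rw [hs1]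
    exact Finset.subset_insert _ _
  refine ⟨n, v, ⋃ k, (s k : Set ℤ), ?_, ?_⟩
  · intro hfin
    have h1 : s (hfin.toFinset.card + 1) ⊆ hfin.toFinset := by
      intro x hx
      rw [Set.Finite.mem_toFinset]
      exact Set.mem_iUnion.2 ⟨_, Finset.mem_coe.2 hx⟩
    have h2 := Finset.card_le_card h1
    rw [hcard] at h2
    omega
  · intro I hI
    obtain ⟨x, hx⟩ : (⋂ k : ℕ, {x | x ∈ Y ∧ ∀ j ∈ s k, (Occ v x j ↔ j ∈ I)}).Nonempty := by
      apply nested
      · intro k x hx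
        exact ⟨hx.1, fun j hj => hx.2 j (hmono k hj)⟩
      · intro k
        obtain ⟨q, -, hq⟩ := hP k ((s k).filter (· ∈ I)) (Finset.filter_subset _ _)
        refine ⟨sh q z, hi q z hz, fun j hj => ?_⟩
        have h1 : Occ v (sh q z) j ↔ Occ v z (q + j) := by
          apply occ_congr
          intro i _ _
          simp only [sh]
          congr 1
          ring
        rw [h1, hq j hj, Finset.mem_filter]
        exact ⟨fun h => h.2, fun h => ⟨hj, h⟩⟩
      · intro k x hx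
        refine ⟨hc x fun R => ?_, fun j hj => ?_⟩
        · obtain ⟨y, hy, h⟩ := hx R
          exact ⟨y, hy.1, h⟩
        · obtain ⟨y, hy, h⟩ := hx (j.natAbs + n)
          rw [← hy.2 j hj]
          apply occ_congr
          intro i h1 h2
          refine (h (j + i) ?_).symm
          have h3 := abs_add_le j i
          rw [abs_of_nonneg h1] at h3
          push_cast
          linarith
    rw [Set.mem_iInter] at hx
    refine ⟨x, (hx 0).1, fun j hj => ?_⟩
    obtain ⟨k, hk⟩ := Set.mem_iUnion.1 hj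
    exact (hx k).2 j (Finset.mem_coe.1 hk)

/-- the orbit closure of `z` -/
def OrbCl {A : Type} (z : ℤ → A) : Set (ℤ → A) :=
  {x | ∀ R : ℕ, ∃ k : ℤ, ∀ i : ℤ, |i| ≤ R → x i = z (k + i)}

theorem orbCl_eq {Y : Set (ℤ → A)} (hc : Cl Y) (hi : Inv Y) {z : ℤ → A} (hz : z ∈ Y)
    (hd : ∀ n : ℕ, SameBlocks n {z} Y) : Y = OrbCl z := by
  apply subset_antisymm
  · intro y hy R
    obtain ⟨j, hj⟩ := hd (2 * R + 1) z rfl y hy (-(R : ℤ))
    refine ⟨j + R, fun i hi => ?_⟩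
    rw [abs_le] at hi
    have h3 := hj (i + R).toNat (by omega)
    have e : (((i + R).toNat : ℕ) : ℤ) = i + R := by omega
    rw [e] at h3
    rw [show j + (R : ℤ) + i = j + (i + R) by ring, h3]
    congr 1
    ring
  · intro x hx
    refine hc x fun R => ?_
    obtain ⟨k, hk⟩ := hx R
    refine ⟨sh k z, hi k z hz, fun i hi => ?_⟩
    rw [hk i hi]
    simp only [sh]
    congr 1
    ring

/-- Tame subshift (Köhler; in the form of Kerr and Li): no two disjoint closed sets `C₀`, `C₁` have an infinite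
independence set `J`, that is, a set such that for all finite `K ⊆ J` and all `I ⊆ K` there is a point `x` of `S` with
`σ^j x ∈ C₁` for `j ∈ I` and `σ^j x ∈ C₀` for `j ∈ K \ I`. -/
def Tame {A : Type} (S : Set (ℤ → A)) : Prop :=
  ¬ ∃ C₀ C₁ : Set (ℤ → A), Cl C₀ ∧ Cl C₁ ∧ Disjoint C₀ C₁ ∧ ∃ J : Set ℤ, J.Infinite ∧
    ∀ K : Finset ℤ, (K : Set ℤ) ⊆ J → ∀ I ⊆ K, ∃ x ∈ S,
      (∀ j ∈ I, sh j x ∈ C₁) ∧ ∀ j ∈ K, j ∉ I → sh j x ∈ C₀

theorem Tame.mono {S T : Set (ℤ → A)} (h : Tame T) (hST : S ⊆ T) : Tame S := by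
  rintro ⟨C₀, C₁, h0, h1, hd, J, hJ, hI⟩
  refine h ⟨C₀, C₁, h0, h1, hd, J, hJ, fun K hK I hIK => ?_⟩
  obtain ⟨x, hx, h⟩ := hI K hK I hIK
  exact ⟨x, hST hx, h⟩

theorem not_tame {S : Set (ℤ → A)} {n : ℕ} (v : Fin n → A) (J : Set ℤ) (hJ : J.Infinite)
    (h : ∀ I ⊆ J, ∃ x ∈ S, ∀ j ∈ J, (Occ v x j ↔ j ∈ I)) : ¬ Tame S := by
  intro ht
  refine ht ⟨{x | ¬ Occ v x 0}, {x | Occ v x 0}, ?_, ?_, ?_, J, hJ, ?_⟩
  · intro x hx
    obtain ⟨y, hy, hxy⟩ := hx n
    intro ho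
    refine hy ((occ_congr v y x 0 0 fun i h1 h2 => hxy _ ?_).2 ho)
    rw [zero_add, abs_of_nonneg h1]
    exact h2.le
  · intro x hx
    obtain ⟨y, hy, hxy⟩ := hx n
    refine (occ_congr v y x 0 0 fun i h1 h2 => hxy _ ?_).1 hy
    rw [zero_add, abs_of_nonneg h1]
    exact h2.le
  · rw [Set.disjoint_left]
    intro x h1 h2
    exact h1 h2
  · intro K hK I hIK
    obtain ⟨x, hx, hj⟩ := h (I : Set ℤ) ((Finset.coe_subset.2 hIK).trans hK)
    have hs : ∀ j : ℤ, Occ v (sh j x) 0 ↔ Occ v x j := by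
      intro j
      apply occ_congr
      intro i _ _
      simp only [sh]
      congr 1
      ring
    refine ⟨x, hx, fun j hjI => ?_, fun j hjK hjI => ?_⟩
    · show Occ v (sh j x) 0
      rw [hs, hj j (hK (hIK hjI))]
      exact hjI
    · show ¬ Occ v (sh j x) 0
      rw [hs, hj j (hK hjK)]
      exact hjI

end

end Pool.Agent.E8helper53.FM
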