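import Pool.Agent.Helper894.FS.Union2
import Pool.Agent.Helper894.FS.JA

/-!
Closed invariant sets of bi-infinite words with an action of the free group on the lines.
-/

set_option autoImplicit false
set_option linter.all false

namespace Pool.Agent.E8helper53.FM

open Pool.Agent.Helper894.FS

/-- The set `Y` is closed under the shift. -/
def Inv {A : Type} (Y : Set (ℤ → A)) : Prop := ∀ (k : ℤ), ∀ x ∈ Y, sh k x ∈ Y

/-- closed in the product topology, for the discrete topology on `A` -/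
def Cl {A : Type} (Y : Set (ℤ → A)) : Prop :=
  ∀ x : ℤ → A, (∀ R : ℕ, ∃ y ∈ Y, ∀ i : ℤ, |i| ≤ R → y i = x i) → x ∈ Y

/-- line actions on the points of `S` -/
structure LineAct (A : Type) (S : Set (ℤ → A)) (r κ : ℕ) where
  Q : (ℤ → A) → F2 →* Equiv.Perm ℤ
  disp : ∀ x ∈ S, Disp r (Q x)
  equi : ∀ x ∈ S, ∀ (k : ℤ) (g : F2) (n : ℤ), Q (sh k x) g n = Q x g (n + k) - k
  bd : ∀ x ∈ S, ∀ (g : F2) (n : ℤ), |Q x g n - n| ≤ g.norm * r
  loc : ∀ (l : ℕ) (g : F2), g.norm ≤ l → ∀ x ∈ S, ∀ y ∈ S,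
    (∀ i : ℤ, |i| ≤ l * r + κ → x i = y i) → Q x g 0 = Q y g 0

/-- A property of points of `S` which depends only on finitely many coordinates. -/
def LC {A : Type} (S : Set (ℤ → A)) (p : (ℤ → A) → Prop) : Prop :=
  ∃ R : ℕ, ∀ x ∈ S, ∀ y ∈ S, (∀ i : ℤ, |i| ≤ R → x i = y i) → (p x ↔ p y)

section

variable {A : Type} {S : Set (ℤ → A)} {r κ : ℕ}

theorem sh_inj (k : ℤ) (x y : ℤ → A) (h : sh k x = sh k y) : x = y := by
  have := congrArg (sh (-k)) h
  rw [sh_sh, sh_sh, neg_add_cancel, sh_zero, sh_zero] at this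
  exact this

theorem Inv.iff {Y : Set (ℤ → A)} (hY : Inv Y) (k : ℤ) (x : ℤ → A) : sh k x ∈ Y ↔ x ∈ Y := by
  constructor
  · intro h
    have := hY (-k) _ h
    rwa [sh_sh, neg_add_cancel, sh_zero] at this
  · exact hY k x

/-- the shifted locality -/
theorem LineAct.locn (D : LineAct A S r κ) (hS : Inv S) (g : F2) (m : ℤ) {x y : ℤ → A}
    (hx : x ∈ S) (hy : y ∈ S)
    (h : ∀ i : ℤ, |i| ≤ |m| + (g.norm * r + κ) → x i = y i) : D.Q x g m = D.Q y g m := by
  have h1 := D.loc g.norm g le_rfl (sh m x) (hS m x hx) (sh m y) (hS m y hy) (by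
    intro i hi
    simp only [sh]
    apply h
    have := abs_add_le i m
    linarith)
  rw [D.equi x hx, D.equi y hy, zero_add] at h1
  linarith

theorem LineAct.bar_sh (D : LineAct A S r κ) {x : ℤ → A} (hx : x ∈ S) (k : ℤ) (g : F2) (n : ℤ) :
    Bar (D.Q (sh k x)) g n ↔ Bar (D.Q x) g (n + k) := by
  unfold Bar
  constructor
  · rintro ⟨h1, h2, h3⟩
    rw [D.equi x hx] at h1
    refine ⟨by linarith, fun y hy => ?_, fun y hy => ?_⟩
    · have := h2 (y - k) (by linarith)
      rw [D.equi x hx, sub_add_cancel] at this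
      linarith
    · have := h3 (y - k) (by linarith)
      rw [D.equi x hx, sub_add_cancel] at this
      linarith
  · rintro ⟨h1, h2, h3⟩
    refine ⟨by rw [D.equi x hx]; linarith, fun y hy => ?_, fun y hy => ?_⟩
    · have := h2 (y + k) (by linarith)
      rw [D.equi x hx]
      linarith
    · have := h3 (y + k) (by linarith)
      rw [D.equi x hx]
      linarith

/-- barriers depend on finitely many coordinates -/
theorem LineAct.bar_loc (D : LineAct A S r κ) (hS : Inv S) (g : F2) (n : ℤ) {x y : ℤ → A}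
    (hx : x ∈ S) (hy : y ∈ S)
    (h : ∀ i : ℤ, |i| ≤ |n| + (2 * (g.norm * r) + κ) → x i = y i) (hb : Bar (D.Q x) g n) :
    Bar (D.Q y) g n := by
  have h0 : (0 : ℤ) ≤ g.norm * r := by positivity
  have key : ∀ m : ℤ, |m - n| ≤ g.norm * r → D.Q x g m = D.Q y g m := by
    intro m hm
    apply D.locn hS g m hx hy
    intro i hi
    apply h
    have h1 : |m| ≤ |m - n| + |n| := by
      have := abs_add_le (m - n) n
      rwa [sub_add_cancel] at this
    linarith
  obtain ⟨h1, h2, h3⟩ := hb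
  refine ⟨by rw [← key n (by rw [sub_self, abs_zero]; exact h0)]; exact h1, ?_, ?_⟩
  · intro z hz
    by_cases hc : |z - n| ≤ g.norm * r
    · rw [← key z hc]; exact h2 z hz
    · have h4 := D.bd y hy g z
      rw [abs_le] at h4
      push Not at hc
      have h5 : n - z > g.norm * r := by
        rw [abs_of_neg (by linarith)] at hc
        linarith
      linarith [h4.2]
  · intro z hz
    by_cases hc : |z - n| ≤ g.norm * r
    · rw [← key z hc]; exact h3 z hz
    · have h4 := D.bd y hy g z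
      rw [abs_le] at h4
      push Not at hc
      have h5 : z - n > g.norm * r := by
        rw [abs_of_pos (by linarith)] at hc
        linarith
      linarith [h4.1]

theorem LineAct.bar_LC (D : LineAct A S r κ) (hS : Inv S) (g : F2) (N : ℕ) :
    LC S (fun x => ∀ n : ℤ, |n| ≤ N → ¬ Bar (D.Q x) g n) := by
  refine ⟨N + (2 * (g.norm * r) + κ), fun x hx y hy h => ?_⟩
  constructor
  · intro hp n hn hb
    refine hp n hn (D.bar_loc hS g n hy hx (fun i hi => (h i ?_).symm) hb)
    push_cast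
    linarith
  · intro hp n hn hb
    refine hp n hn (D.bar_loc hS g n hx hy (fun i hi => h i ?_) hb)
    push_cast
    linarith

theorem LineAct.move_LC (D : LineAct A S r κ) (g : F2) : LC S (fun x => D.Q x g 0 ≠ 0) := by
  refine ⟨g.norm * r + κ, fun x hx y hy h => ?_⟩
  show D.Q x g 0 ≠ 0 ↔ D.Q y g 0 ≠ 0
  rw [D.loc g.norm g le_rfl x hx y hy (by
    intro i hi
    apply h
    push_cast
    exact hi)]

/-- `g` acts trivially on the lines of the points of `Z`. -/
def LineAct.Triv (D : LineAct A S r κ) (g : F2) (Z : Set (ℤ → A)) : Prop := ∀ x ∈ Z, D.Q x g = 1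

theorem LineAct.triv_of (D : LineAct A S r κ) {Z : Set (ℤ → A)} (hZ : Inv Z) (hZS : Z ⊆ S) (g : F2)
    (h : ∀ x ∈ Z, D.Q x g 0 = 0) : D.Triv g Z := by
  intro x hx
  ext n
  have := h (sh n x) (hZ n x hx)
  rw [D.equi x (hZS hx), zero_add] at this
  rw [Equiv.Perm.one_apply]
  linarith

theorem LineAct.triv_inter (D : LineAct A S r κ) {Z Z' : Set (ℤ → A)} {g g' : F2} (hg : g ≠ 1)
    (hg' : g' ≠ 1) (h : D.Triv g Z) (h' : D.Triv g' Z') :
    ∃ w : F2, w ≠ 1 ∧ D.Triv w Z ∧ D.Triv w Z' := by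
  obtain ⟨p, q, hpq⟩ := JA.twist g g' hg hg'
  refine ⟨_, hpq, ?_, ?_⟩
  · intro x hx
    simp only [map_mul, map_inv, h x hx]
    group
  · intro x hx
    simp only [map_mul, map_inv, h' x hx]
    group

end

end Pool.Agent.E8helper53.FM
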