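import Pool.Agent.E8helper53.FM.Line

/-!
Minimal closed invariant sets, and elements without barriers.
-/

set_option autoImplicit false
set_option linter.all false

namespace Pool.Agent.E8helper53.FM

open Pool.Agent.Helper894.FS

section top

variable {A : Type} [Finite A] {S : Set (ℤ → A)}

theorem cl_iff [TopologicalSpace A] [DiscreteTopology A] (Y : Set (ℤ → A)) : IsClosed Y ↔ Cl Y := by
  constructor
  · intro h x hx
    by_contra hn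
    obtain ⟨I, u, hu, hsub⟩ := isOpen_pi_iff.1 h.isOpen_compl x hn
    obtain ⟨y, hy, hxy⟩ := hx (I.sup fun i => i.natAbs)
    apply hsub (a := y) _ hy
    intro i hi
    rw [hxy i (by
      have h1 : i.natAbs ≤ I.sup fun i => i.natAbs := Finset.le_sup (f := fun i : ℤ => i.natAbs) hi
      rw [← Int.natCast_natAbs]
      exact_mod_cast h1)]
    exact (hu i hi).2
  · intro h
    rw [← isOpen_compl_iff, isOpen_pi_iff]
    intro x hx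
    have h1 : ∃ R : ℕ, ∀ y ∈ Y, ∃ i : ℤ, |i| ≤ R ∧ y i ≠ x i := by
      by_contra hc
      push Not at hc
      exact hx (h x fun R => hc R)
    obtain ⟨R, hR⟩ := h1
    refine ⟨Finset.Icc (-(R : ℤ)) R, fun i => {x i}, fun i _ => ⟨isOpen_discrete _, rfl⟩, ?_⟩
    intro y hy hyY
    obtain ⟨i, hi, hne⟩ := hR y hyY
    exact hne (hy i (by
      rw [abs_le] at hi
      exact Finset.mem_coe.2 (Finset.mem_Icc.2 hi)))

theorem cl_sep {Y : Set (ℤ → A)} (h : Cl Y) (hY : Y ⊆ S) (hS : Cl S) {p : (ℤ → A) → Prop}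
    (hp : LC S p) : Cl {x | x ∈ Y ∧ p x} := by
  intro x hx
  have h1 : x ∈ Y := h x fun R => by
    obtain ⟨y, hy, hxy⟩ := hx R
    exact ⟨y, hy.1, hxy⟩
  refine ⟨h1, ?_⟩
  obtain ⟨R, hR⟩ := hp
  obtain ⟨y, hy, hxy⟩ := hx R
  exact (hR y (hY hy.1) x (hY h1) hxy).1 hy.2

/-- compactness for chains -/
theorem chain_meet {c : Set (Set (ℤ → A))} (hc : IsChain (· ⊆ ·) c) (hne : c.Nonempty)
    (hcl : ∀ s ∈ c, Cl s) (hn : ∀ s ∈ c, s.Nonempty) : (⋂₀ c).Nonempty := by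
  letI : TopologicalSpace A := ⊥
  haveI : DiscreteTopology A := ⟨rfl⟩
  haveI : Nonempty c := hne.to_subtype
  rw [Set.sInter_eq_iInter]
  apply IsCompact.nonempty_iInter_of_directed_nonempty_isCompact_isClosed
  · intro s t
    rcases hc.total s.2 t.2 with h | h
    · exact ⟨s, le_rfl, h⟩
    · exact ⟨t, h, le_rfl⟩
  · intro s; exact hn s s.2
  · intro s; exact ((cl_iff s.1).2 (hcl s s.2)).isCompact
  · intro s; exact (cl_iff s.1).2 (hcl s s.2)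

theorem zornT (hS : Cl S) (T : Set ((ℤ → A) → Prop)) (hT : ∀ p ∈ T, LC S p) {Y₀ : Set (ℤ → A)}
    (h1 : Cl Y₀) (h2 : Inv Y₀) (h3 : Y₀ ⊆ S) (h4 : ∀ p ∈ T, ∃ x ∈ Y₀, p x) :
    ∃ Y ⊆ Y₀, Cl Y ∧ Inv Y ∧ (∀ p ∈ T, ∃ x ∈ Y, p x) ∧
      ∀ Z ⊆ Y, Cl Z → Inv Z → (∀ p ∈ T, ∃ x ∈ Z, p x) → Z = Y := by
  obtain ⟨m, hm1, hm2⟩ := zorn_superset_nonempty
    {Y : Set (ℤ → A) | Y ⊆ Y₀ ∧ Cl Y ∧ Inv Y ∧ ∀ p ∈ T, ∃ x ∈ Y, p x} (by
      intro c hcs hc hne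
      obtain ⟨s0, hs0⟩ := hne
      refine ⟨⋂₀ c, ⟨fun x hx => (hcs hs0).1 (hx s0 hs0), ?_, ?_, ?_⟩, fun s hs => Set.sInter_subset_of_mem hs⟩
      · intro x hx s hs
        refine (hcs hs).2.1 x fun R => ?_
        obtain ⟨y, hy, hxy⟩ := hx R
        exact ⟨y, hy s hs, hxy⟩
      · intro k x hx s hs
        exact (hcs hs).2.2.1 k x (hx s hs)
      · intro p hp
        have h := chain_meet (c := (fun s => {x | x ∈ s ∧ p x}) '' c) (by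
          rintro _ ⟨s, hs, rfl⟩ _ ⟨t, ht, rfl⟩ _
          rcases hc.total hs ht with h | h
          · exact Or.inl fun x hx => ⟨h hx.1, hx.2⟩
          · exact Or.inr fun x hx => ⟨h hx.1, hx.2⟩) ⟨_, s0, hs0, rfl⟩ (by
          rintro _ ⟨s, hs, rfl⟩
          exact cl_sep (hcs hs).2.1 ((hcs hs).1.trans h3) hS (hT p hp)) (by
          rintro _ ⟨s, hs, rfl⟩
          obtain ⟨x, hx, hpx⟩ := (hcs hs).2.2.2 p hp
          exact ⟨x, hx, hpx⟩)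
        obtain ⟨x, hx⟩ := h
        exact ⟨x, fun s hs => (hx _ ⟨s, hs, rfl⟩).1, (hx _ ⟨s0, hs0, rfl⟩).2⟩)
    Y₀ ⟨le_rfl, h1, h2, h4⟩
  refine ⟨m, hm1, hm2.1.2.1, hm2.1.2.2.1, hm2.1.2.2.2, fun Z hZ hZ1 hZ2 hZ3 => ?_⟩
  exact subset_antisymm hZ (hm2.2 ⟨hZ.trans hm1, hZ1, hZ2, hZ3⟩ hZ)

/-- minimal closed invariant set -/
def MinSub {A : Type} (M : Set (ℤ → A)) : Prop :=
  M.Nonempty ∧ Cl M ∧ Inv M ∧ ∀ Z ⊆ M, Z.Nonempty → Cl Z → Inv Z → Z = M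

theorem exists_min {Y₀ : Set (ℤ → A)} (h1 : Cl Y₀) (h2 : Inv Y₀) (h4 : Y₀.Nonempty) :
    ∃ M ⊆ Y₀, MinSub M := by
  obtain ⟨M, hM, h5, h6, h7, h8⟩ := zornT h1 {fun _ => True} (by
    rintro p hp
    rw [Set.mem_singleton_iff] at hp
    subst hp
    exact ⟨0, fun _ _ _ _ _ => Iff.rfl⟩) h1 h2 le_rfl (by
    rintro p hp
    rw [Set.mem_singleton_iff] at hp
    subst hp
    obtain ⟨x, hx⟩ := h4
    exact ⟨x, hx, trivial⟩)
  refine ⟨M, hM, ?_, h5, h6, fun Z hZ hZn hZ1 hZ2 => h8 Z hZ hZ1 hZ2 ?_⟩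
  · obtain ⟨x, hx, _⟩ := h7 _ rfl
    exact ⟨x, hx⟩
  · rintro p hp
    rw [Set.mem_singleton_iff] at hp
    subst hp
    obtain ⟨x, hx⟩ := hZn
    exact ⟨x, hx, trivial⟩

end top

theorem pow_fix (π : Equiv.Perm ℤ) (b₁ b₂ j : ℤ) (h1 : b₁ < j) (h2 : j < b₂) (K : ℕ)
    (hK : b₂ - b₁ ≤ K) (hp : ∀ y, b₁ < y → y < b₂ → b₁ < π y ∧ π y < b₂) :
    (π ^ K.factorial) j = j := by
  have hin : ∀ n : ℕ, b₁ < (π ^ n) j ∧ (π ^ n) j < b₂ := by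
    intro n
    induction n with
    | zero => simpa using ⟨h1, h2⟩
    | succ n ih =>
      rw [pow_succ', Equiv.Perm.mul_apply]
      exact hp _ ih.1 ih.2
  obtain ⟨n₁, hn1, n₂, hn2, hne, he⟩ := Finset.exists_ne_map_eq_of_card_lt_of_maps_to
    (s := Finset.range (K + 1)) (t := Finset.Ioo b₁ b₂) (f := fun n => (π ^ n) j) (by
      rw [Finset.card_range, Int.card_Ioo]
      omega) (fun n _ => Finset.mem_coe.2 (Finset.mem_Ioo.2 (hin n)))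
  have key : ∀ m₁ m₂ : ℕ, m₁ < m₂ → m₂ ≤ K → (π ^ m₁) j = (π ^ m₂) j → (π ^ K.factorial) j = j := by
    intro m₁ m₂ hlt hle he
    obtain ⟨d, rfl⟩ := Nat.exists_eq_add_of_lt hlt
    have h3 : (π ^ (d + 1)) j = j := by
      have h4 : (π ^ m₁) j = (π ^ m₁) ((π ^ (d + 1)) j) := by
        rw [← Equiv.Perm.mul_apply, ← pow_add, he, add_assoc]
      exact ((π ^ m₁).injective h4).symm
    obtain ⟨e, he'⟩ : d + 1 ∣ K.factorial := Nat.dvd_factorial (by omega) (by omega)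
    rw [he', pow_mul]
    clear he'
    induction e with
    | zero => simp
    | succ e ih => rw [pow_succ, Equiv.Perm.mul_apply, h3, ih]
  rw [Finset.mem_range] at hn1 hn2
  rcases Nat.lt_or_gt_of_ne hne with h | h
  · exact key n₁ n₂ h (by omega) he
  · exact key n₂ n₁ h (by omega) he.symm

section nobar

variable {A : Type} [Finite A] {S : Set (ℤ → A)} {r κ : ℕ}

theorem exists_nobar (D : LineAct A S r κ) (hSc : Cl S) (hSi : Inv S) {Y : Set (ℤ → A)}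
    (hYc : Cl Y) (hYi : Inv Y) (hYS : Y ⊆ S) (hf : ∀ g : F2, g ≠ 1 → ∃ x ∈ Y, D.Q x g 0 ≠ 0)
    {g : F2} (hg : g ≠ 1) : ∃ x ∈ Y, ∀ n : ℤ, ¬ Bar (D.Q x) g n := by
  by_contra hcon
  push Not at hcon
  have hN : ∃ N : ℕ, ∀ x ∈ Y, ∃ n : ℤ, |n| ≤ N ∧ Bar (D.Q x) g n := by
    by_contra hc
    push Not at hc
    have hcl : ∀ N : ℕ, Cl {x | x ∈ Y ∧ ∀ n : ℤ, |n| ≤ N → ¬ Bar (D.Q x) g n} :=
      fun N => cl_sep hYc hYS hSc (D.bar_LC hSi g N)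
    letI : TopologicalSpace A := ⊥
    haveI : DiscreteTopology A := ⟨rfl⟩
    have h := IsCompact.nonempty_iInter_of_sequence_nonempty_isCompact_isClosed
      (fun N : ℕ => {x | x ∈ Y ∧ ∀ n : ℤ, |n| ≤ N → ¬ Bar (D.Q x) g n})
      (fun N x hx => ⟨hx.1, fun n hn => hx.2 n (by push_cast; linarith)⟩)
      (fun N => by
        obtain ⟨x, hx, h⟩ := hc N
        exact ⟨x, hx, h⟩)
      ((cl_iff _).2 (hcl 0)).isCompact (fun N => (cl_iff _).2 (hcl N))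
    obtain ⟨x, hx⟩ := h
    rw [Set.mem_iInter] at hx
    obtain ⟨n, hn⟩ := hcon x (hx 0).1
    refine (hx n.natAbs).2 n ?_ hn
    rw [← Int.natCast_natAbs]
  obtain ⟨N, hN⟩ := hN
  have hpow : g ^ (4 * N + 4).factorial ≠ 1 := JA.torsion_free g hg _ (Nat.factorial_ne_zero _)
  obtain ⟨x, hx, hne⟩ := hf _ hpow
  apply hne
  have hb : ∀ m : ℤ, ∃ n : ℤ, |n| ≤ N ∧ Bar (D.Q x) g (m + n) := by
    intro m
    obtain ⟨n, hn, hb⟩ := hN (sh m x) (hYi m x hx)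
    rw [D.bar_sh (hYS hx)] at hb
    exact ⟨n, hn, by rwa [add_comm]⟩
  obtain ⟨n₁, hn1, hb1⟩ := hb (-(N : ℤ) - 1)
  obtain ⟨n₂, hn2, hb2⟩ := hb ((N : ℤ) + 1)
  rw [abs_le] at hn1 hn2
  rw [map_pow]
  refine pow_fix (D.Q x g) (-(N : ℤ) - 1 + n₁) ((N : ℤ) + 1 + n₂) 0 (by linarith [hn1.2])
    (by linarith [hn2.1]) (4 * N + 4) (by push_cast; linarith [hn1.1, hn2.2]) ?_
  intro y hy1 hy2
  exact ⟨hb1.2.2 y hy1, hb2.2.1 y hy2⟩

end nobar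

end Pool.Agent.E8helper53.FM
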